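import Mathlib

/-!
A connected noninvolutory quandle with two good involutions.

Let `G` be the group of signed permutation matrices of size `4` and determinant `1` (order `192`),
let `t` be the element `t e₁ = e₂`, `t e₂ = e₃`, `t e₃ = e₄`, `t e₄ = - e₁` of order `8`, and let
`X` be its conjugacy class in `G`. It has `24` elements, it generates `G`, and
it is closed under `x ↦ x⁻¹` and under `x ↦ - x⁻¹` (as `t ^ 4 = -1` is central). These two maps are
good involutions of the conjugation quandle of `X`, which is connected and not involutory. The file
uses the multiplication table of this quandle, with the elements numbered from `0` to `23`.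
-/

namespace Pool.Agent.Results.MP_f5f603_al.TwoGoodInvolutions

universe u

/-- `R` with the operation `op` (written `x * y` in the problem) is a quandle. -/
structure IsQuandle {R : Type u} (op : R → R → R) : Prop where
  /-- `x * x = x`. -/
  idem : ∀ x, op x x = x
  /-- The right translation `x ↦ x * y` is a bijection. -/
  bij : ∀ y, Function.Bijective (fun x => op x y)
  /-- `(x * y) * z = (x * z) * (y * z)`. -/
  distrib : ∀ x y z, op (op x y) z = op (op x z) (op y z)

/-- The group of permutations of `R` generated by the right translations `x ↦ x * y`. -/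
def translationGroup {R : Type u} (op : R → R → R) : Subgroup (Equiv.Perm R) :=
  Subgroup.closure {s | ∃ y, ∀ x, s x = op x y}

/-- The group generated by the right translations acts transitively on `R`. -/
def QConnected {R : Type u} (op : R → R → R) : Prop :=
  ∀ a b : R, ∃ g ∈ translationGroup op, g a = b

/-- Every right translation is an involution: `(x * y) * y = x` for all `x` and `y`. -/
def QInvolutory {R : Type u} (op : R → R → R) : Prop :=
  ∀ x y, op (op x y) y = x

/-- `ρ` is a good involution: `ρ (ρ x) = x`, `ρ (x * y) = ρ x * y`, and `x * ρ y` is the element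
which the right translation by `y` maps to `x`. -/
structure IsGoodInvolution {R : Type u} (op : R → R → R) (ρ : R → R) : Prop where
  /-- `ρ` is an involution (the identity map is allowed). -/
  invol : ∀ x, ρ (ρ x) = x
  /-- `ρ (x * y) = ρ x * y`. -/
  comm : ∀ x y, ρ (op x y) = op (ρ x) y
  /-- `(x * ρ y) * y = x`, that is, `x * ρ y = x *⁻¹ y`. -/
  inv : ∀ x y, op (op x (ρ y)) y = x

/-- Entry number `i` of a list of numbers below `32` that is coded by a natural number. -/
def entry (code i : ℕ) : Fin 24 := Fin.ofNat 24 ((code >>> (5 * i)) % 32)

/-- The multiplication table of the quandle. -/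
def table : ℕ :=
  0xba42d45d2b640136a6e14dd6804d905586f5aac8011857d943b290b61404242a893da74a155440956bcf2555282cd7438c325512ba4cab08e474ad5463aea9a28499c8653997a209321a6791885148cea8e8f29a44349c2a3ea33c4a401e2c5bd03244e589d8040d6f009572aeb029a07b880aaae0581ca6aae51788017d8298aeb20082f0a5f61840e516693ba40704609952a900ee5d4e61804d1ddaa35567101a36a87708d82bccb630a2c10c2c2ced78b0c28128b8b5e6b2ef4592147b4d1bd2cbb29a1a595574c500aacd55ab4141d34dde3aa6f4115c41dd2fba695710459951530471bd6c8a966818626b22f589e13744e2a06ad99e303c44eab68134a7061a4043561848d39180c5850d732c985105848b14b1d6450b02c612101362557324672b00495d6649c891a22326b9836a476922916386d1d9a97b44c4920a930e2635e28114938a4c450c70b1cf0a9f73d106731e17dc2a6bdc0b4097880ce03dae242f633a20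

/-- The quandle operation. -/
def mul (x y : Fin 24) : Fin 24 := entry table (24 * x.val + y.val)

/-- The first good involution (inversion). -/
def rho (x : Fin 24) : Fin 24 := entry 0x91d807dd439acb5744c2b25a182094 x.val

/-- The second good involution (inversion followed by the multiplication by `-1`). -/
def rho' (x : Fin 24) : Fin 24 := entry 0x3444e0a6cd2520801e4c55c6f2d66b x.val

/-- First letter of a word that leads from `0` to `x`. -/
def word1 (x : Fin 24) : Fin 24 := entry 0x10000000000000000000000000 x.val

/-- Second letter of a word that leads from `0` to `x`. -/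
def word2 (x : Fin 24) : Fin 24 := entry 0xc11080000001088410802009840 x.val

/-- Third letter of a word that leads from `0` to `x`. -/
def word3 (x : Fin 24) : Fin 24 := entry 0x290e238c2650925090a330d0712940 x.val

theorem mul_idem : ∀ x, mul x x = x := by decide +kernel

theorem mul_distrib : ∀ x y z, mul (mul x y) z = mul (mul x z) (mul y z) := by decide +kernel

theorem mul_rho : ∀ x y, mul (mul x y) (rho y) = x := by decide +kernel

theorem good_rho : IsGoodInvolution mul rho :=
  ⟨by decide +kernel, by decide +kernel, by decide +kernel⟩

theorem good_rho' : IsGoodInvolution mul rho' :=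
  ⟨by decide +kernel, by decide +kernel, by decide +kernel⟩

theorem word_spec : ∀ x, mul (mul (mul 0 (word1 x)) (word2 x)) (word3 x) = x := by decide +kernel

/-- The right translation by `y` as a permutation. -/
def transl (y : Fin 24) : Equiv.Perm (Fin 24) where
  toFun x := mul x y
  invFun x := mul x (rho y)
  left_inv x := mul_rho x y
  right_inv x := good_rho.inv x y

theorem transl_mem (y : Fin 24) : transl y ∈ translationGroup mul :=
  Subgroup.subset_closure ⟨y, fun _ => rfl⟩

theorem isQuandle : IsQuandle mul where
  idem := mul_idem
  bij y := (transl y).bijective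
  distrib := mul_distrib

theorem connected : QConnected mul := by
  have key : ∀ x, ∃ g ∈ translationGroup mul, g 0 = x := by
    intro x
    refine ⟨transl (word3 x) * (transl (word2 x) * transl (word1 x)), ?_, word_spec x⟩
    exact mul_mem (transl_mem _) (mul_mem (transl_mem _) (transl_mem _))
  intro a b
  obtain ⟨g, hg, rfl⟩ := key a
  obtain ⟨h, hh, rfl⟩ := key b
  exact ⟨h * g⁻¹, mul_mem hh (inv_mem hg), by simp⟩

/-- There is a connected quandle that is not involutory and has two distinct good involutions. -/
theorem result : ∃ (R : Type) (op : R → R → R), IsQuandle op ∧ QConnected op ∧ ¬ QInvolutory op ∧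
    ∃ ρ ρ' : R → R, IsGoodInvolution op ρ ∧ IsGoodInvolution op ρ' ∧ ρ ≠ ρ' := by
  refine ⟨Fin 24, mul, isQuandle, connected, ?_, rho, rho', good_rho, good_rho', ?_⟩
  · unfold QInvolutory
    decide +kernel
  · intro h
    exact absurd (congrFun h 0) (by decide +kernel)

end Pool.Agent.Results.MP_f5f603_al.TwoGoodInvolutions
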